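import Mathlib

set_option autoImplicit false

open Set Filter Topology

namespace Pool.Agent.Results.MP_65e89e_gt.NotSelfTietze

/-- A set-valued map `f : Y → 2^X` (its values are closed nonempty subsets of `X`, see
`IsClosedValued`) is upper semi-continuous if `{y | f y ⊆ U}` is open for every open `U`. -/
def IsUSC {Y X : Type} [TopologicalSpace Y] [TopologicalSpace X] (f : Y → Set X) : Prop :=
  ∀ U : Set X, IsOpen U → IsOpen {y : Y | f y ⊆ U}

/-- `f` is a function into `2^X`, the family of all nonempty closed subsets of `X`. -/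
def IsClosedValued {Y X : Type} [TopologicalSpace X] (f : Y → Set X) : Prop :=
  ∀ y : Y, (f y).Nonempty ∧ IsClosed (f y)

/-- `X` is set-self-Tietze: for every closed `A ⊆ X`, every usc `f : A → 2^X` extends to a
usc `F : X → 2^X`. -/
def SetSelfTietze (X : Type) [TopologicalSpace X] : Prop :=
  ∀ A : Set X, IsClosed A → ∀ f : A → Set X, IsClosedValued f → IsUSC f →
    ∃ F : X → Set X, IsClosedValued F ∧ IsUSC F ∧ ∀ a : A, F (a : X) = f a

/-- A countable set of indices. -/
abbrev D : Type := ℕ × Finset ℕ

open Classical in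
/-- The branch of `x`: all the pairs `(n, x ∩ n)`. -/
noncomputable def branchPt (x : Set ℕ) (n : ℕ) : D := (n, (Finset.range n).filter (· ∈ x))

/-- The branch of `x`. -/
def branch (x : Set ℕ) : Set D := Set.range (branchPt x)

lemma branchPt_injective (x : Set ℕ) : Function.Injective (branchPt x) := by
  intro m n h
  exact congrArg Prod.fst h

lemma branch_infinite (x : Set ℕ) : (branch x).Infinite :=
  Set.infinite_range_of_injective (branchPt_injective x)

lemma branch_inter_finite {x y : Set ℕ} (h : x ≠ y) : (branch x ∩ branch y).Finite := by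
  classical
  obtain ⟨k, hk⟩ : ∃ k, ¬ (k ∈ x ↔ k ∈ y) := by
    by_contra hcon
    push Not at hcon
    exact h (Set.ext hcon)
  refine ((Set.finite_Iic k).image (branchPt x)).subset ?_
  rintro d ⟨⟨m, rfl⟩, ⟨n, hn⟩⟩
  have hmn : n = m := congrArg Prod.fst hn
  subst hmn
  refine ⟨n, ?_, rfl⟩
  by_contra hlt
  have hlt' : k < n := not_le.mp hlt
  have h2 : (Finset.range n).filter (· ∈ y) = (Finset.range n).filter (· ∈ x) :=
    congrArg Prod.snd hn
  apply hk
  constructor
  · intro hx
    have : k ∈ (Finset.range n).filter (· ∈ x) := by simp [hlt', hx]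
    rw [← h2] at this
    simpa [hlt'] using this
  · intro hy
    have : k ∈ (Finset.range n).filter (· ∈ y) := by simp [hlt', hy]
    rw [h2] at this
    simpa [hlt'] using this

/-- The free ultrafilters on `D`. -/
def Free : Set (Ultrafilter D) := {p | ∀ d : D, ({d} : Set D) ∉ p}

lemma Free.isClosed : IsClosed Free := by
  have : Free = ⋂ d : D, {p : Ultrafilter D | ({d} : Set D) ∈ p}ᶜ := by
    ext p
    simp [Free]
  rw [this]
  exact isClosed_iInter fun d => (ultrafilter_isOpen_basic _).isClosed_compl

lemma Free.not_mem_finite {p : Ultrafilter D} (hp : p ∈ Free) {s : Set D} (hs : s.Finite) :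
    s ∉ p := by
  intro hmem
  obtain ⟨d, _, hd⟩ := (Ultrafilter.finite_biUnion_mem_iff (f := p) hs
    (s := fun d => ({d} : Set D))).1 (by simpa using hmem)
  exact hp d hd

lemma exists_free (x : Set ℕ) : ∃ p ∈ Free, branch x ∈ p := by
  have hne : (cofinite ⊓ 𝓟 (branch x)).NeBot := by
    rw [Filter.inf_principal_neBot_iff]
    intro U hU
    have : (Uᶜ).Finite := hU
    by_contra hcon
    rw [Set.not_nonempty_iff_eq_empty] at hcon
    apply branch_infinite x
    refine this.subset ?_
    intro d hd hdU
    have : d ∈ U ∩ branch x := ⟨hdU, hd⟩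
    rw [hcon] at this
    exact this
  refine ⟨Ultrafilter.of (cofinite ⊓ 𝓟 (branch x)), ?_, ?_⟩
  · intro d hd
    have h1 : ({d} : Set D)ᶜ ∈ (Ultrafilter.of (cofinite ⊓ 𝓟 (branch x))) :=
      Ultrafilter.of_le _ (Filter.mem_inf_of_left (by simp))
    exact (Ultrafilter.compl_notMem_iff.2 hd) h1
  · exact Ultrafilter.of_le _ (Filter.mem_inf_of_right (by simp))

/-- The space: the Stone-Cech compactification of the countable discrete space `D`, together
with a disjoint copy of its remainder. -/
abbrev Sp : Type := Ultrafilter D ⊕ Free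

lemma emb : IsClosedEmbedding (fun p : Free => (Sum.inl p.1 : Sp)) :=
  IsClosedEmbedding.inl.comp Free.isClosed.isClosedEmbedding_subtypeVal

/-- **There is a compact Hausdorff space that is not set-self-Tietze.** -/
theorem result : ∃ (X : Type) (_ : TopologicalSpace X),
    CompactSpace X ∧ T2Space X ∧ ¬ SetSelfTietze X := by
  have : CompactSpace Free := isCompact_iff_compactSpace.1 Free.isClosed.isCompact
  refine ⟨Sp, inferInstance, inferInstance, inferInstance, ?_⟩
  intro hST
  let A : Set Sp := Set.range (fun p : Free => (Sum.inl p.1 : Sp))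
  let e : Free ≃ₜ A := emb.isEmbedding.toHomeomorph
  let f : A → Set Sp := fun a => {Sum.inr (e.symm a)}
  obtain ⟨F, hF1, hF2, hF3⟩ := hST A emb.isClosed_range f
    (fun a => ⟨Set.singleton_nonempty _, isClosed_singleton⟩)
    (by
      intro U hU
      have : {a : A | f a ⊆ U} = (fun a : A => (Sum.inr (e.symm a) : Sp)) ⁻¹' U := by
        ext a
        simp [f]
      rw [this]
      exact hU.preimage (continuous_inr.comp e.symm.continuous))
  have hFp : ∀ p : Free, F (Sum.inl p.1) = {Sum.inr p} := by
    intro p
    have h1 := hF3 (e p)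
    have h2 : ((e p : A) : Sp) = Sum.inl p.1 := rfl
    rw [h2] at h1
    rw [h1]
    simp [f]
  -- for each `x` a point of `D` which `F` sends into the clopen set given by the branch of `x`
  let W : Set ℕ → Set Sp := fun x => Sum.inr '' {q : Free | branch x ∈ q.1}
  have hW : ∀ x, IsOpen (W x) := by
    intro x
    refine isOpenMap_inr _ ?_
    exact (ultrafilter_isOpen_basic (branch x)).preimage continuous_subtype_val
  have hex : ∀ x : Set ℕ, ∃ d : D, F (Sum.inl (pure d)) ⊆ W x := by
    intro x
    obtain ⟨p, hp, hpx⟩ := exists_free x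
    have hop : IsOpen ((Sum.inl : Ultrafilter D → Sp) ⁻¹' {z : Sp | F z ⊆ W x}) :=
      (hF2 _ (hW x)).preimage continuous_inl
    have hne : ((Sum.inl : Ultrafilter D → Sp) ⁻¹' {z : Sp | F z ⊆ W x}).Nonempty := by
      refine ⟨p, ?_⟩
      have := hFp ⟨p, hp⟩
      change F (Sum.inl p) ⊆ W x
      rw [this, Set.singleton_subset_iff]
      exact ⟨⟨p, hp⟩, hpx, rfl⟩
    obtain ⟨d, hd⟩ := denseRange_pure.exists_mem_open hop hne
    exact ⟨d, hd⟩
  choose d hd using hex
  have hinj : Function.Injective d := by
    intro x y hxy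
    by_contra hne
    obtain ⟨z, hz⟩ := (hF1 (Sum.inl (pure (d x)))).1
    have h1 := hd x hz
    have h2 := hd y (by rw [← hxy]; exact hz)
    obtain ⟨q, hq, rfl⟩ := h1
    obtain ⟨q', hq', hqq⟩ := h2
    have : q' = q := Sum.inr_injective hqq
    subst this
    exact Free.not_mem_finite q'.2 (branch_inter_finite hne) (Filter.inter_mem hq hq')
  exact Function.cantor_injective (fun x : Set ℕ => Encodable.encode (d x))
    (Encodable.encode_injective.comp hinj)

end Pool.Agent.Results.MP_65e89e_gt.NotSelfTietze
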